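import Mathlib

/-!
# Fine normal ultrafilters on `P_κ(κ⁺)` and the Galvin property

Almost disjoint families of functions `κ⁺ → κ⁺`, and how they refute the Galvin property of a fine
normal ultrafilter.
-/

set_option autoImplicit false

namespace Pool.Agent.Y586.GFN

open Cardinal Set Order

/-- Any two of the functions agree at at most `κ` points. -/
def AD (κ : Cardinal.{0}) {ι X Z : Type} (F : ι → X → Z) : Prop :=
  ∀ i j, i ≠ j → #{ξ | F i ξ = F j ξ} ≤ κ

/-- There is a family of `μ` functions `X → X`, any two of which agree at at most `κ` points. -/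
def HasAD (κ : Cardinal.{0}) (X : Type) (μ : Cardinal.{0}) : Prop :=
  ∃ (ι : Type) (F : ι → X → X), #ι = μ ∧ AD κ F

theorem AD.restrict {κ : Cardinal.{0}} {ι X Z : Type} {F : ι → X → Z} (h : AD κ F) {ι' : Type}
    (e : ι' → ι) (he : Function.Injective e) : AD κ (fun i => F (e i)) :=
  fun i j hij => h (e i) (e j) (fun h' => hij (he h'))

theorem AD.comp {κ : Cardinal.{0}} {ι X Z W : Type} {F : ι → X → Z} (h : AD κ F)
    (e : Z → W) (he : Function.Injective e) : AD κ (fun i ξ => e (F i ξ)) := by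
  intro i j hij
  refine le_trans (mk_le_mk_of_subset ?_) (h i j hij)
  intro ξ hξ
  exact he hξ

theorem hasAD_of_le {κ : Cardinal.{0}} {ι X : Type} {F : ι → X → X} (h : AD κ F)
    {μ : Cardinal.{0}} (hμ : μ ≤ #ι) : HasAD κ X μ := by
  obtain ⟨s, hs⟩ := le_mk_iff_exists_set.1 hμ
  exact ⟨s, fun i => F i, hs, h.restrict _ Subtype.val_injective⟩

theorem HasAD.mono {κ : Cardinal.{0}} {X : Type} {μ ν : Cardinal.{0}} (h : HasAD κ X μ)
    (hν : ν ≤ μ) : HasAD κ X ν := by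
  obtain ⟨ι, F, rfl, hF⟩ := h
  exact hasAD_of_le hF hν

/-- A common point at which the members of a subfamily of size `≤ κ` are different. -/
theorem AD.exists_injOn {κ : Cardinal.{0}} (hκ : ℵ₀ ≤ κ) {ι X Z : Type} {F : ι → X → Z}
    (h : AD κ F) (hX : κ < #X) (I : Set ι) (hI : #I ≤ κ) :
    ∃ ξ, InjOn (fun i => F i ξ) I := by
  by_contra hcon
  push Not at hcon
  have h1 : ∀ ξ : X, ξ ∈ ⋃ p : {p : I × I // p.1.1 ≠ p.2.1}, {ξ | F p.1.1 ξ = F p.1.2 ξ} := by
    intro ξ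
    have h2 := hcon ξ
    unfold InjOn at h2
    push Not at h2
    obtain ⟨i, hi, j, hj, hij, hne⟩ := h2
    rw [mem_iUnion]
    exact ⟨⟨⟨⟨i, hi⟩, ⟨j, hj⟩⟩, hne⟩, hij⟩
  have h3 : #X ≤ #(⋃ p : {p : I × I // p.1.1 ≠ p.2.1}, {ξ | F p.1.1 ξ = F p.1.2 ξ} : Set X) := by
    rw [eq_univ_of_forall h1, mk_univ]
  have h4 : #(⋃ p : {p : I × I // p.1.1 ≠ p.2.1}, {ξ | F p.1.1 ξ = F p.1.2 ξ} : Set X) ≤ κ := by
    refine (mk_iUnion_le _).trans ?_
    have h5 : #{p : I × I // p.1.1 ≠ p.2.1} ≤ κ := by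
      refine (mk_subtype_le _).trans ?_
      rw [← mul_def]
      exact (mul_le_mul' hI hI).trans (mul_eq_self hκ).le
    refine (mul_le_mul' h5 (ciSup_le' (a := κ) fun p => h _ _ p.2)).trans (mul_eq_self hκ).le
  exact absurd (h3.trans h4) (not_le.2 hX)

theorem mk_Iio_toType_lt {c : Cardinal.{0}} (i : c.ord.ToType) : #(Iio i) < c := by
  simpa using mk_Iio_lt i

theorem mk_Iic_toType_le {κ : Cardinal.{0}} (hκ : ℵ₀ ≤ κ) (i : (succ κ).ord.ToType) :
    #(Iic i) ≤ κ := by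
  have h3 : Iic i = insert i (Iio i) := by
    ext y
    simp only [mem_Iic, mem_insert_iff, mem_Iio]
    exact le_iff_eq_or_lt
  rw [h3]
  refine (mk_insert_le).trans ?_
  have h4 : #(Iio i) ≤ κ := lt_succ_iff.1 (mk_Iio_toType_lt i)
  exact (add_le_add h4 (one_le_aleph0.trans hκ)).trans (add_eq_self hκ).le

theorem mk_Iic_toType_le' {c : Cardinal.{0}} {i : c.ord.ToType} (h : ℵ₀ ≤ #(Iio i)) :
    #(Iic i) ≤ #(Iio i) := by
  have h3 : Iic i = insert i (Iio i) := by
    ext y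
    simp only [mem_Iic, mem_insert_iff, mem_Iio]
    exact le_iff_eq_or_lt
  rw [h3]
  refine (mk_insert_le).trans ?_
  exact (add_le_add le_rfl (one_le_aleph0.trans h)).trans (add_eq_self h).le

/-- A rank function on `X`. -/
theorem exists_rank (κ : Cardinal.{0}) (X : Type) (hκ : ℵ₀ ≤ κ) (hX : #X = succ κ) :
    ∃ ρ : X → (succ κ).ord.ToType, Function.Bijective ρ ∧
      (∀ x, #{y | ρ y ≤ ρ x} ≤ κ) := by
  have h1 : #X = #((succ κ).ord.ToType) := by rw [hX, mk_ord_toType]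
  obtain ⟨e⟩ := Cardinal.eq.1 h1
  refine ⟨e, e.bijective, fun x => ?_⟩
  have h2 : #{y | e y ≤ e x} = #(Iic (e x)) := by
    refine mk_congr (e.subtypeEquiv ?_)
    intro y
    rfl
  rw [h2]
  exact mk_Iic_toType_le hκ _

/-- `κ⁺⁺` almost disjoint functions. -/
theorem hasAD_succ (κ : Cardinal.{0}) (X : Type) (hκ : ℵ₀ ≤ κ) (hX : #X = succ κ) :
    HasAD κ X (succ (succ κ)) := by
  obtain ⟨ρ, hρ, hρκ⟩ := exists_rank κ X hκ hX
  obtain ⟨S, hS⟩ := zorn_subset {S : Set (X → X) | AD κ (fun i : S => (i : X → X))} (by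
    intro c hc hchain
    refine ⟨⋃₀ c, ?_, fun s hs => subset_sUnion_of_mem hs⟩
    rintro ⟨i, s, hs, his⟩ ⟨j, t, ht, hjt⟩ hij
    rcases hchain.total hs ht with h | h
    · exact hc ht ⟨i, h his⟩ ⟨j, hjt⟩ (fun h' => hij (by
        have := congrArg Subtype.val h'
        exact Subtype.ext this))
    · exact hc hs ⟨i, his⟩ ⟨j, h hjt⟩ (fun h' => hij (by
        have := congrArg Subtype.val h'
        exact Subtype.ext this)))
  by_cases hcard : succ (succ κ) ≤ #S
  · exact hasAD_of_le hS.prop hcard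
  exfalso
  have h1 : #S ≤ #X := by
    rw [hX]
    exact lt_succ_iff.1 (not_le.1 hcard)
  obtain ⟨e⟩ := Cardinal.le_def _ _ |>.1 h1
  have h2 : ∀ ξ : X, ∃ y : X, ∀ g : S, ρ (e g) ≤ ρ ξ → y ≠ (g : X → X) ξ := by
    intro ξ
    by_contra hcon
    push Not at hcon
    choose g hg1 hg2 using hcon
    have h3 : Function.Injective (fun y : X => (⟨e (g y), hg1 y⟩ : {y | ρ y ≤ ρ ξ})) := by
      intro y y' hyy
      have h4 : g y = g y' := e.injective (congrArg Subtype.val hyy)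
      rw [hg2 y, h4, ← hg2 y']
    have h5 := (mk_le_of_injective h3).trans (hρκ ξ)
    rw [hX] at h5
    exact absurd h5 (not_le.2 (lt_succ κ))
  choose f hf using h2
  have h6 : AD κ (fun i : (insert f S : Set (X → X)) => (i : X → X)) := by
    have h7 : ∀ g ∈ S, #{ξ | f ξ = g ξ} ≤ κ := by
      intro g hg
      refine le_trans (mk_le_mk_of_subset ?_) (hρκ (e ⟨g, hg⟩))
      intro ξ hξ
      by_contra hcon
      exact hf ξ ⟨g, hg⟩ (not_le.1 hcon).le hξ
    rintro ⟨i, hi⟩ ⟨j, hj⟩ hij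
    rcases hi with rfl | hi
    · rcases hj with rfl | hj
      · exact absurd rfl hij
      · exact h7 j hj
    · rcases hj with rfl | hj
      · refine le_trans (mk_le_mk_of_subset ?_) (h7 i hi)
        intro ξ hξ
        exact Eq.symm hξ
      · exact hS.prop ⟨i, hi⟩ ⟨j, hj⟩ (fun h' => hij (by
          have := congrArg Subtype.val h'
          exact Subtype.ext this))
  have h8 : f ∈ S := hS.le_of_ge h6 (subset_insert f S) (mem_insert f S)
  exact hf (e ⟨f, h8⟩) ⟨f, h8⟩ le_rfl rfl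

/-- The branches through the tree of bounded subsets: `2^(κ⁺)` almost disjoint functions into a set
of size `2^κ`. -/
theorem exists_branches (κ : Cardinal.{0}) (X : Type) (hκ : ℵ₀ ≤ κ) (hX : #X = succ κ) :
    ∃ (Z : Type) (F : Set X → X → Z), #Z ≤ 2 ^ κ ∧ AD κ F := by
  obtain ⟨ρ, hρ, hρκ⟩ := exists_rank κ X hκ hX
  refine ⟨Σ ξ : X, Set {y | ρ y ≤ ρ ξ}, fun Y ξ => ⟨ξ, {y | y.1 ∈ Y}⟩, ?_, ?_⟩
  · rw [mk_sigma]
    refine (sum_le_mk_mul_iSup _).trans ?_
    have h1 : (⨆ ξ : X, #(Set {y | ρ y ≤ ρ ξ})) ≤ 2 ^ κ := by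
      refine ciSup_le' fun ξ => ?_
      rw [mk_set]
      exact power_le_power_left two_ne_zero (hρκ ξ)
    have h2 : #X ≤ 2 ^ κ := by
      rw [hX]
      exact succ_le_of_lt (cantor κ)
    refine (mul_le_mul' h2 h1).trans (mul_eq_self ?_).le
    exact hκ.trans (cantor κ).le
  · intro Y Y' hne
    obtain ⟨y, hy⟩ : ∃ y, ¬ (y ∈ Y ↔ y ∈ Y') := by
      by_contra hcon
      push Not at hcon
      exact hne (Set.ext hcon)
    refine le_trans (mk_le_mk_of_subset ?_) (hρκ y)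
    intro ξ hξ
    by_contra hcon
    have h1 : ρ y ≤ ρ ξ := (not_le.1 hcon).le
    have hξ' : (⟨ξ, {y | y.1 ∈ Y}⟩ : Σ ξ : X, Set {y | ρ y ≤ ρ ξ}) = ⟨ξ, {y | y.1 ∈ Y'}⟩ := hξ
    rw [Sigma.mk.injEq] at hξ'
    have h2 := Set.ext_iff.1 (eq_of_heq hξ'.2) ⟨y, h1⟩
    exact hy h2

/-- Reduction of the codomain, given a small covering family. -/
theorem hasAD_of_cover (κ : Cardinal.{0}) (X : Type) (hX : #X = succ κ) {ι Z : Type}
    {F : ι → X → Z} (hF : AD κ F) (C : Set (Set Z)) (hC1 : ∀ c ∈ C, #c ≤ succ κ)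
    (hC2 : ∀ s : Set Z, #s ≤ succ κ → ∃ c ∈ C, s ⊆ c) {μ : Cardinal.{0}} (hμ : μ.IsRegular)
    (hμι : μ ≤ #ι) (hCμ : #C < μ) : HasAD κ X μ := by
  have h1 : ∀ i : ι, ∃ c : C, ∀ ξ, F i ξ ∈ c.1 := by
    intro i
    obtain ⟨c, hc, hsc⟩ := hC2 (range (F i)) (mk_range_le.trans hX.le)
    exact ⟨⟨c, hc⟩, fun ξ => hsc (mem_range_self ξ)⟩
  choose c hc using h1
  obtain ⟨a, ha⟩ := infinite_pigeonhole_card c μ hμι hμ.aleph0_le (by rwa [hμ.cof_ord])
  have h2 : #a.1 ≤ #X := by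
    rw [hX]
    exact hC1 a.1 a.2
  obtain ⟨e⟩ := Cardinal.le_def _ _ |>.1 h2
  have h3 : ∀ i : c ⁻¹' {a}, ∀ ξ, F i.1 ξ ∈ a.1 := by
    rintro ⟨i, hi⟩ ξ
    have h4 : c i = a := hi
    have h5 := hc i ξ
    rwa [h4] at h5
  refine hasAD_of_le (F := fun (i : c ⁻¹' {a}) ξ => e ⟨F i.1 ξ, h3 i ξ⟩) ?_ ha
  intro i j hij
  refine le_trans (mk_le_mk_of_subset ?_) (hF i.1 j.1 (fun h => hij (Subtype.ext h)))
  intro ξ hξ
  exact congrArg Subtype.val (e.injective hξ)

/-- Gluing almost disjoint families: the limit step. -/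
theorem hasAD_of_forall_lt (κ : Cardinal.{0}) (X : Type) (hκ : ℵ₀ ≤ κ) (hX : #X = succ κ)
    {μ θ : Cardinal.{0}} (hμ : ℵ₀ ≤ μ) (hθ : θ < μ)
    (h : ∀ ν : Cardinal.{0}, ν.IsRegular → θ < ν → ν ≤ μ → HasAD κ X ν) : HasAD κ X μ := by
  rcases isRegular_or_isSingular hμ with hreg | hsing
  · exact h μ hreg hθ le_rfl
  have hlim : ∀ ν < μ, succ ν < μ := fun ν hν => hsing.isSuccLimit.succ_lt hν
  have hlt : ∀ ν < μ, HasAD κ X ν := by
    intro ν hν
    have h1 : max (max θ ν) ℵ₀ < μ :=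
      max_lt (max_lt hθ hν) (lt_of_le_of_ne hμ (by
        rintro rfl
        exact not_isSingular_aleph0 hsing))
    refine (h (succ (max (max θ ν) ℵ₀)) (isRegular_succ (le_max_right _ _)) ?_ ?_).mono ?_
    · exact lt_of_le_of_lt ((le_max_left _ _).trans (le_max_left _ _)) (lt_succ _)
    · exact (hlim _ h1).le
    · exact ((le_max_right _ _).trans (le_max_left _ _)).trans (le_succ _)
  obtain ⟨J, hJc, hJ⟩ := exists_cof_eq μ.ord.ToType
  rw [Ordinal.cof_toType] at hJ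
  have hJμ : #J < μ := by
    rw [hJ]
    exact hsing.cof_ord_lt
  obtain ⟨J', G, hJ', hG⟩ := hlt _ hJμ
  obtain ⟨eJ⟩ := Cardinal.eq.1 hJ'
  have h2 : ∀ a : J, HasAD κ X #(Iic a.1) := fun a => by
    by_cases hfin : #(Iio a.1) < ℵ₀
    · refine hlt _ (lt_of_lt_of_le ?_ hμ)
      have h3 : Iic a.1 = insert a.1 (Iio a.1) := by
        ext y
        simp only [mem_Iic, mem_insert_iff, mem_Iio]
        exact le_iff_eq_or_lt
      rw [h3]
      exact (mk_insert_le).trans_lt (add_lt_aleph0 hfin one_lt_aleph0)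
    · have h4 := mk_Iic_toType_le' (not_lt.1 hfin)
      exact hlt _ (h4.trans_lt (mk_Iio_toType_lt _))
  choose ι F hι hF using h2
  have hXinf : ℵ₀ ≤ #X := by
    rw [hX]
    exact hκ.trans (le_succ κ)
  have h3 : #(X × X) = #X := by
    rw [← mul_def, mul_eq_self hXinf]
  obtain ⟨e⟩ := Cardinal.eq.1 h3
  have h4 : AD κ (fun (p : Σ a : J, ι a) ξ => e (G (eJ.symm p.1) ξ, F p.1 p.2 ξ)) := by
    rintro ⟨a, i⟩ ⟨b, j⟩ hne
    by_cases hab : a = b
    · subst hab
      have hij : i ≠ j := fun h' => hne (by rw [h'])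
      refine le_trans (mk_le_mk_of_subset ?_) (hF a i j hij)
      intro ξ hξ
      exact (Prod.ext_iff.1 (e.injective hξ)).2
    · refine le_trans (mk_le_mk_of_subset ?_) (hG (eJ.symm a) (eJ.symm b)
        (fun h' => hab (eJ.symm.injective h')))
      intro ξ hξ
      exact (Prod.ext_iff.1 (e.injective hξ)).1
  refine hasAD_of_le h4 ?_
  have h5 : #(Σ a : J, ι a) = #(Σ a : J, Iic a.1) := by
    rw [mk_sigma, mk_sigma]
    congr 1
    funext a
    exact hι a
  rw [h5]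
  have h6 : Function.Surjective (fun p : (Σ a : J, Iic a.1) => (p.2.1 : μ.ord.ToType)) := by
    intro x
    obtain ⟨a, ha, hxa⟩ := hJc x
    exact ⟨⟨⟨a, ha⟩, ⟨x, hxa⟩⟩, rfl⟩
  have h7 := mk_le_of_surjective h6
  rwa [mk_ord_toType] at h7

/-- Cofinal families of subsets of size `≤ κ⁺` of `κ⁺, κ⁺⁺, …`. -/
theorem exists_cover (κ : Cardinal.{0}) (hκ : ℵ₀ ≤ κ) (n : ℕ) (Z : Type)
    (hZ : #Z ≤ succ^[n + 1] κ) :
    ∃ C : Set (Set Z), (∀ c ∈ C, #c ≤ succ κ) ∧ (∀ s : Set Z, #s ≤ succ κ → ∃ c ∈ C, s ⊆ c) ∧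
      #C ≤ succ^[n + 1] κ := by
  have hinf : ∀ m : ℕ, ℵ₀ ≤ succ^[m] κ := by
    intro m
    induction m with
    | zero => exact hκ
    | succ m ih =>
      rw [Function.iterate_succ_apply']
      exact ih.trans (le_succ _)
  induction n generalizing Z with
  | zero =>
    refine ⟨{Set.univ}, ?_, fun s _ => ⟨Set.univ, rfl, subset_univ s⟩, ?_⟩
    · rintro c rfl
      rw [mk_univ]
      exact hZ
    · rw [mk_singleton]
      exact one_le_aleph0.trans (hinf _)
  | succ n ih =>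
    set θ := succ^[n + 1 + 1] κ with hθ
    have hθ' : θ = succ (succ^[n + 1] κ) := by rw [hθ, Function.iterate_succ_apply']
    have hreg : θ.IsRegular := by
      rw [hθ']
      exact isRegular_succ (hinf _)
    have hlt : succ κ < θ := by
      have h0 : ∀ m : ℕ, succ κ ≤ succ^[m + 1] κ := by
        intro m
        induction m with
        | zero => exact le_rfl
        | succ m ihm =>
          rw [Function.iterate_succ_apply']
          exact ihm.trans (le_succ _)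
      rw [hθ']
      exact lt_of_le_of_lt (h0 n) (lt_succ _)
    have h1 : #Z ≤ #(θ.ord.ToType) := by rwa [mk_ord_toType]
    obtain ⟨e⟩ := Cardinal.le_def _ _ |>.1 h1
    have h2 : ∀ b : θ.ord.ToType, #{z : Z | e z < b} ≤ succ^[n + 1] κ := by
      intro b
      have h3 : #{z : Z | e z < b} ≤ #(Iio b) :=
        mk_le_of_injective (f := fun z : {z : Z | e z < b} => (⟨e z.1, z.2⟩ : Iio b))
          (fun z z' hz => Subtype.ext (e.injective (congrArg Subtype.val hz)))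
      refine h3.trans ?_
      have h4 := mk_Iio_toType_lt b
      have h5 : ∀ c : Cardinal.{0}, c < θ → c ≤ succ^[n + 1] κ := by
        intro c hc
        rwa [hθ', lt_succ_iff] at hc
      exact h5 _ h4
    have h3 := fun b : θ.ord.ToType => ih {z : Z | e z < b} (h2 b)
    choose C hC1 hC2 hC3 using h3
    refine ⟨⋃ b, (fun c : Set {z : Z | e z < b} => (Subtype.val '' c : Set Z)) '' C b, ?_, ?_, ?_⟩
    · intro c hc
      rw [mem_iUnion] at hc
      obtain ⟨b, c', hc', rfl⟩ := hc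
      exact mk_image_le.trans (hC1 b c' hc')
    · intro s hs
      have h4 : ∃ b : θ.ord.ToType, ∀ z ∈ s, e z < b := by
        by_contra hcon
        push Not at hcon
        have h5 : IsCofinal (e '' s : Set (θ.ord.ToType)) := by
          intro b
          obtain ⟨z, hz, hbz⟩ := hcon b
          exact ⟨e z, mem_image_of_mem e hz, hbz⟩
        have h6 : Order.cof (θ.ord.ToType) ≤ #(e '' s : Set (θ.ord.ToType)) := Order.cof_le h5
        rw [Ordinal.cof_toType, hreg.cof_ord] at h6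
        exact absurd (h6.trans (mk_image_le.trans hs)) (not_le.2 hlt)
      obtain ⟨b, hb⟩ := h4
      obtain ⟨c, hc, hsc⟩ := hC2 b {z | z.1 ∈ s} (by
        refine le_trans ?_ hs
        exact mk_le_of_injective (f := fun z : {z : {z : Z | e z < b} | z.1 ∈ s} =>
          (⟨z.1.1, z.2⟩ : s)) (fun z z' hz => Subtype.ext (Subtype.ext (Subtype.mk.inj hz))))
      refine ⟨Subtype.val '' c, ?_, ?_⟩
      · rw [mem_iUnion]
        exact ⟨b, mem_image_of_mem _ hc⟩
      · intro z hz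
        exact ⟨⟨z, hb z hz⟩, hsc hz, rfl⟩
    · refine (mk_iUnion_le _).trans ?_
      have h5 : (⨆ b, #((fun c : Set {z : Z | e z < b} => (Subtype.val '' c : Set Z)) '' C b)) ≤ θ := by
        refine ciSup_le' fun b => ?_
        refine mk_image_le.trans ((hC3 b).trans ?_)
        rw [hθ']
        exact le_succ _
      refine (mul_le_mul' (mk_ord_toType θ).le h5).trans (mul_eq_self ?_).le
      exact hinf _

end Pool.Agent.Y586.GFN
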