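import Pool.Agent.Y586.GalvinFN

/-!
# Fine normal ultrafilters on `P_κ(κ⁺)` and the Galvin property, part 2
-/

set_option autoImplicit false

namespace Pool.Agent.Y586.GFN

open Cardinal Set Order

variable {κ : Cardinal.{0}} {X : Type}

/-- The set of all `x` closed under `f` is in a fine normal ultrafilter. -/
theorem closed_mem (U : Ultrafilter {x : Set X // #x < κ})
    (hfine : ∀ a : X, {x : {x : Set X // #x < κ} | a ∈ x.1} ∈ U)
    (hnormal : ∀ f : {x : Set X // #x < κ} → X, {x : {x : Set X // #x < κ} | f x ∈ x.1} ∈ U →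
      ∃ a : X, {x : {x : Set X // #x < κ} | f x = a} ∈ U)
    (f : X → X) : {x : {x : Set X // #x < κ} | ∀ a ∈ x.1, f a ∈ x.1} ∈ U := by
  by_contra hcon
  rw [← Ultrafilter.compl_mem_iff_notMem] at hcon
  by_cases hX : IsEmpty X
  · refine absurd ?_ (U.empty_notMem)
    convert hcon
    ext x
    constructor
    · intro h
      exact h.elim
    · intro h
      exact (h fun a => (hX.false a).elim).elim
  rw [not_isEmpty_iff] at hX
  have h1 : ∀ x : {x : Set X // #x < κ}, ∃ a : X, (¬ ∀ a ∈ x.1, f a ∈ x.1) → a ∈ x.1 ∧ f a ∉ x.1 := by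
    intro x
    by_cases h : ∀ a ∈ x.1, f a ∈ x.1
    · exact ⟨hX.some, fun h' => (h' h).elim⟩
    · have h' := h
      push Not at h'
      obtain ⟨a, ha, hfa⟩ := h'
      exact ⟨a, fun _ => ⟨ha, hfa⟩⟩
  choose g hg using h1
  obtain ⟨a, ha⟩ := hnormal g (Filter.mem_of_superset hcon fun x hx => (hg x hx).1)
  have h2 := Filter.inter_mem (Filter.inter_mem hcon ha) (hfine (f a))
  obtain ⟨x, ⟨hx1, hx2⟩, hx3⟩ := U.nonempty_of_mem h2
  have h3 := (hg x hx1).2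
  rw [show g x = a from hx2] at h3
  exact h3 hx3

theorem spread_of_hasAD (hκ : ℵ₀ ≤ κ) (hX : #X = succ κ) {μ : Cardinal.{0}} (h : HasAD κ X μ) :
    ∃ (ι : Type) (F : ι → X → X), #ι = μ ∧
      ∀ I : Set ι, #I = κ → ∃ ξ, κ ≤ #((fun i => F i ξ) '' I) := by
  obtain ⟨ι, F, hι, hF⟩ := h
  refine ⟨ι, F, hι, fun I hI => ?_⟩
  obtain ⟨ξ, hξ⟩ := hF.exists_injOn hκ (by rw [hX]; exact lt_succ κ) I hI.le
  exact ⟨ξ, by rw [mk_image_eq_of_injOn _ _ hξ, hI]⟩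

theorem noGal (hκ : ℵ₀ ≤ κ) (U : Ultrafilter {x : Set X // #x < κ})
    (hfine : ∀ a : X, {x : {x : Set X // #x < κ} | a ∈ x.1} ∈ U)
    (hnormal : ∀ f : {x : Set X // #x < κ} → X, {x : {x : Set X // #x < κ} | f x ∈ x.1} ∈ U →
      ∃ a : X, {x : {x : Set X // #x < κ} | f x = a} ∈ U)
    {μ : Cardinal.{0}} (hμ : κ < μ) (h : ∃ (ι : Type) (F : ι → X → X), #ι = μ ∧
      ∀ I : Set ι, #I = κ → ∃ ξ, κ ≤ #((fun i => F i ξ) '' I)) :
    ∃ S : Set (Set {x : Set X // #x < κ}), (∀ s ∈ S, s ∈ U) ∧ #S = μ ∧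
      ∀ T ⊆ S, κ ≤ #T → ⋂₀ T ∉ U := by
  obtain ⟨ι, F, rfl, hF⟩ := h
  let A : ι → Set {x : Set X // #x < κ} := fun i => {x | ∀ a ∈ x.1, F i a ∈ x.1}
  have hA : ∀ i, A i ∈ U := fun i => closed_mem U hfine hnormal (F i)
  have key : ∀ I : Set ι, κ ≤ #I → ∀ B : Set {x : Set X // #x < κ}, (∀ i ∈ I, B ⊆ A i) → B ∉ U := by
    intro I hI B hB hBU
    obtain ⟨I', hI'I, hI'⟩ := le_mk_iff_exists_subset.1 hI
    obtain ⟨ξ, hξ⟩ := hF I' hI'
    obtain ⟨x, hx1, hx2⟩ := U.nonempty_of_mem (Filter.inter_mem hBU (hfine ξ))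
    have h1 : (fun i => F i ξ) '' I' ⊆ x.1 := by
      rintro _ ⟨i, hi, rfl⟩
      exact hB i (hI'I hi) hx1 ξ hx2
    exact absurd x.2 (not_lt.2 (hξ.trans (mk_le_mk_of_subset h1)))
  refine ⟨range A, ?_, ?_, ?_⟩
  · rintro _ ⟨i, rfl⟩
    exact hA i
  · refine le_antisymm mk_range_le ?_
    by_contra hcon
    have h1 : #(range A) < #ι := not_le.1 hcon
    have h2 : ∀ s : range A, #(A ⁻¹' {s.1}) ≤ κ := by
      rintro ⟨s, i, rfl⟩
      by_contra hcon'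
      have h3 : κ ≤ #(A ⁻¹' {A i}) := (not_le.1 hcon').le
      refine key _ h3 (A i) ?_ (hA i)
      intro j hj
      exact (show A j = A i from hj).ge
    have h4 : #ι ≤ #(range A) * κ := by
      have h5 : Function.Surjective
          (fun p : (Σ s : range A, (A ⁻¹' {s.1} : Set ι)) => (p.2.1 : ι)) := by
        intro i
        exact ⟨⟨⟨A i, mem_range_self i⟩, ⟨i, rfl⟩⟩, rfl⟩
      refine (mk_le_of_surjective h5).trans ?_
      rw [mk_sigma]
      refine (sum_le_mk_mul_iSup _).trans ?_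
      exact mul_le_mul' le_rfl (ciSup_le' h2)
    have h6 : #(range A) * κ < #ι := mul_lt_of_lt (hκ.trans hμ.le) h1 hμ
    exact absurd h4 (not_le.2 h6)
  · intro T hT hκT hTU
    choose f hf using fun t : T => hT t.2
    have h1 : Function.Injective f := by
      intro t t' htt
      apply Subtype.ext
      rw [← hf t, ← hf t', htt]
    refine key (range f) ?_ (⋂₀ T) ?_ hTU
    · rwa [mk_range_eq f h1]
    · rintro _ ⟨t, rfl⟩
      rw [hf t]
      exact sInter_subset_of_mem t.2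

/-- `2^(κ⁺)` almost disjoint functions, if `[2^κ]^(κ⁺)` has a cofinal family of size `< 2^(κ⁺)`. -/
theorem hasAD_of_cover' (hκ : ℵ₀ ≤ κ) (hX : #X = succ κ)
    (h : ∃ (Z : Type) (C : Set (Set Z)), 2 ^ κ ≤ #Z ∧ (∀ c ∈ C, #c ≤ succ κ) ∧
      (∀ s : Set Z, #s ≤ succ κ → ∃ c ∈ C, s ⊆ c) ∧ #C < 2 ^ succ κ) :
    HasAD κ X (2 ^ succ κ) := by
  obtain ⟨Z', F, hZ', hF⟩ := exists_branches κ X hκ hX
  obtain ⟨Z, C, hZ, hC1, hC2, hC3⟩ := h
  obtain ⟨e⟩ := Cardinal.le_def _ _ |>.1 (hZ'.trans hZ)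
  have hF' := hF.comp e e.injective
  refine hasAD_of_forall_lt κ X hκ hX (hκ.trans ((le_succ κ).trans (cantor _).le)) hC3 ?_
  intro ν hν hCν hν2
  refine hasAD_of_cover κ X hX hF' C hC1 hC2 hν ?_ hCν
  rw [mk_set, hX]
  exact hν2

theorem hasAD_of_iterate (hκ : ℵ₀ ≤ κ) (hX : #X = succ κ) {n : ℕ}
    (h : (2 : Cardinal.{0}) ^ κ = succ^[n] κ) (h2 : (2 : Cardinal.{0}) ^ κ < 2 ^ succ κ) :
    HasAD κ X (2 ^ succ κ) := by
  obtain ⟨m, rfl⟩ : ∃ m, n = m + 1 := by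
    cases n with
    | zero =>
      exfalso
      have h3 := cantor κ
      rw [h] at h3
      exact lt_irrefl _ h3
    | succ m => exact ⟨m, rfl⟩
  obtain ⟨C, hC1, hC2, hC3⟩ := exists_cover κ hκ m ((succ^[m + 1] κ).ord.ToType)
    (mk_ord_toType _).le
  refine hasAD_of_cover' hκ hX ⟨_, C, ?_, hC1, hC2, ?_⟩
  · rw [mk_ord_toType, h]
  · exact (hC3.trans h.symm.le).trans_lt h2

end Pool.Agent.Y586.GFN
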